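import Pool.Agent.TH375.KL.Additive

/-!
# Nagao sums for almost all members of additive families of fibrations

Let `G` be a polynomial over `ℤ` in the variables `x, t_1, …, t_k`.  For an integer `s` let `X_s` be the
fibration over the affine space of the `t` with fibres the curves `y² = G(x, t) + s`.  If the degree of `G` in `x`
is odd, the Frobenius trace on `H¹` of a smooth fibre over `F_p` is `-∑_x ((G(x, t) + s) / p)`.  The Nagao
sums `Σ_T(A) = ∑_{p ≤ T} A_p(X_s) log p` are shown to be of square root size for almost all `s` of an arbitrary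
interval of length `N ≥ z²` and all `T ≤ z`, so that `Σ_T(A) / T` is small for `z^(1/2 + δ) ≤ T ≤ z`.
-/

set_option autoImplicit false

namespace Pool.Agent.Results.MP_1a0ddd_nt.AdditiveFamilies

/-- The box `{0, …, p - 1}^n`. -/
def box (n p : ℕ) : Finset (Fin n → ℕ) := Fintype.piFinset fun _ => Finset.range p

/-- The value of the polynomial `G` at `u`. -/
noncomputable def value {n : ℕ} (G : MvPolynomial (Fin n) ℤ) (u : Fin n → ℕ) : ℤ :=
  MvPolynomial.eval (fun i => (u i : ℤ)) G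

/-- The fibre average `A_p(X_s)`: minus the sum of the Jacobi symbols `((G(x, t) + s) / p)` over all `(x, t)`
modulo `p`, divided by `p^k`. -/
noncomputable def fibreAverage {k : ℕ} (G : MvPolynomial (Fin (k + 1)) ℤ) (p : ℕ) (s : ℤ) : ℝ :=
  -((∑ u ∈ box (k + 1) p, jacobiSym (value G u + s) p : ℤ) : ℝ) / (p : ℝ) ^ k

/-- The odd primes up to `x`. -/
def oddPrimes (x : ℕ) : Finset ℕ := ((Finset.range (x + 1)).filter Nat.Prime).filter (· ≠ 2)

/-- The Nagao sum `∑_{p ≤ T} A_p(X_s) log p`, over odd primes. -/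
noncomputable def nagaoSum {k : ℕ} (G : MvPolynomial (Fin (k + 1)) ℤ) (s : ℤ) (T : ℕ) : ℝ :=
  ∑ p ∈ oddPrimes T, fibreAverage G p s * Real.log p

open scoped Classical in
/-- The number of pairs `(u, v)` of points modulo `p` with `G(u) ≡ G(v)` modulo `p`. -/
noncomputable def coincidences {n : ℕ} (G : MvPolynomial (Fin n) ℤ) (p : ℕ) : ℕ :=
  ((box n p ×ˢ box n p).filter fun w => (p : ℤ) ∣ value G w.1 - value G w.2).card

/-- The sum over the odd primes `p ≤ z` of the mean value over `s` modulo `p` of `A_p(X_s)²`. -/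
noncomputable def variance {k : ℕ} (G : MvPolynomial (Fin (k + 1)) ℤ) (z : ℕ) : ℝ :=
  ∑ p ∈ oddPrimes z, (∑ s ∈ Finset.range p, fibreAverage G p s ^ 2) / p

section
open Pool.Agent.TH375.KL

theorem fa_eq {k : ℕ} (G : MvPolynomial (Fin (k + 1)) ℤ) (p : ℕ) (s : ℤ) :
    fibreAverage G p s = -((csum G p s : ℝ) / (p : ℝ) ^ k) := by
  unfold fibreAverage csum
  rw [neg_div]
  rfl

theorem coinc_eq {n : ℕ} (G : MvPolynomial (Fin n) ℤ) (p : ℕ) : coincidences G p = pairs G p := rfl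

/-- the exact second moment over the members modulo `p` -/
theorem second_moment {k : ℕ} (G : MvPolynomial (Fin (k + 1)) ℤ) {p : ℕ} (hp : p.Prime)
    (h2 : p ≠ 2) : (∑ s ∈ Finset.range p, fibreAverage G p s ^ 2) / p =
      ((coincidences G p : ℝ) - (p : ℝ) ^ (2 * k + 1)) / (p : ℝ) ^ (2 * k) := by
  have : Fact p.Prime := ⟨hp⟩
  have hp0 : (0 : ℝ) < p := by exact_mod_cast hp.pos
  have h1 := csum_sq G h2
  have h3 : ∑ u ∈ Finset.range p, (csum G p (u : ℤ) : ℝ) ^ 2 =
      p * (pairs G p : ℝ) - (p : ℝ) ^ (2 * (k + 1)) := by exact_mod_cast h1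
  have h4 : ∑ s ∈ Finset.range p, fibreAverage G p s ^ 2 =
      (∑ u ∈ Finset.range p, (csum G p (u : ℤ) : ℝ) ^ 2) / (p : ℝ) ^ (2 * k) := by
    rw [Finset.sum_div]
    refine Finset.sum_congr rfl fun u _ => ?_
    rw [fa_eq, neg_sq, div_pow, ← pow_mul, mul_comm k 2]
  rw [h4, h3, coinc_eq, show 2 * (k + 1) = 2 * k + 1 + 1 by ring, pow_succ (p : ℝ) (2 * k + 1)]
  field_simp

theorem variance_eq {k : ℕ} (G : MvPolynomial (Fin (k + 1)) ℤ) (z : ℕ) :
    variance G z = ∑ p ∈ (Prm z).filter (· ≠ 2),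
      ((pairs G p : ℝ) - (p : ℝ) ^ (2 * k + 1)) / (p : ℝ) ^ (2 * k) := by
  unfold variance
  refine Finset.sum_congr rfl fun p hp => ?_
  rw [Finset.mem_filter] at hp
  have hpp : p.Prime := (Finset.mem_filter.1 hp.1).2
  exact second_moment G hpp hp.2

theorem nagao_eq {k : ℕ} (G : MvPolynomial (Fin (k + 1)) ℤ) (s : ℤ) (x : ℕ) :
    nagaoSum G s x ^ 2 =
      (∑ p ∈ (Prm x).filter (· ≠ 2), (csum G p s : ℝ) / (p : ℝ) ^ k * Real.log p) ^ 2 := by
  have h1 : nagaoSum G s x =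
      -∑ p ∈ (Prm x).filter (· ≠ 2), (csum G p s : ℝ) / (p : ℝ) ^ k * Real.log p := by
    unfold nagaoSum
    rw [← Finset.sum_neg_distrib]
    refine Finset.sum_congr rfl fun p _ => ?_
    rw [fa_eq]
    ring
  rw [h1, neg_sq]

theorem variance_le {k : ℕ} (G : MvPolynomial (Fin (k + 1)) ℤ) (z : ℕ) (D : ℝ) (hD : 0 ≤ D)
    (h : ∀ p : ℕ, p.Prime → p ≠ 2 → p ≤ z →
      (coincidences G p : ℝ) ≤ (p : ℝ) ^ (2 * k + 1) + D * (p : ℝ) ^ (2 * k)) :
    variance G z ≤ D * Nat.primeCounting z := by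
  have h0 : Nat.primeCounting z = ((Finset.range (z + 1)).filter Nat.Prime).card := by
    unfold Nat.primeCounting Nat.primeCounting'
    rw [Nat.count_eq_card_filter_range]
  unfold variance
  have h1 : ∀ p ∈ oddPrimes z, (∑ s ∈ Finset.range p, fibreAverage G p s ^ 2) / p ≤ D := by
    intro p hp
    unfold oddPrimes at hp
    rw [Finset.mem_filter, Finset.mem_filter, Finset.mem_range] at hp
    have hp0 : (0 : ℝ) < p := by exact_mod_cast hp.1.2.pos
    rw [second_moment G hp.1.2 hp.2, div_le_iff₀ (by positivity)]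
    have h2 := h p hp.1.2 hp.2 (by omega)
    linarith
  refine (Finset.sum_le_card_nsmul _ _ D h1).trans ?_
  rw [nsmul_eq_mul, mul_comm, h0]
  refine mul_le_mul_of_nonneg_left ?_ hD
  unfold oddPrimes
  exact_mod_cast Finset.card_filter_le _ _

end

/-- **Nagao sums for almost all members of additive families.**

Let `G` be a polynomial over `ℤ` in `x, t_1, …, t_k`.
1. For all but at most `6 (N + z²) / K` of the integers `s` in `(M, M + N]` and for all `T ≤ z`,
`(∑_{p ≤ T} A_p(X_s) log p)² ≤ K (log₂ z + 2)² (log z)² V(z)`, where `V(z)` is the sum over the odd primes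
`p ≤ z` of the mean square of `A_p(X_s)` over `s` modulo `p`.
2. This mean square is `(E_p - p^(2k+1)) / p^(2k)`, `E_p` the number of pairs of points modulo `p` with the same
value of `G`.
3. If `E_p ≤ p^(2k+1) + D p^(2k)` for all odd primes `p ≤ z`, then `V(z) ≤ D π(z)`. -/
theorem result {k : ℕ} (G : MvPolynomial (Fin (k + 1)) ℤ) (M : ℤ) (N z : ℕ) :
    (∀ K : ℝ, 0 < K →
      ({s : ℤ | M < s ∧ s ≤ M + N ∧ ∃ T : ℕ, T ≤ z ∧
        K * (Nat.log 2 z + 2) ^ 2 * (Real.log z ^ 2 * variance G z) <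
          nagaoSum G s T ^ 2}.ncard : ℝ) ≤ 6 * (N + (z : ℝ) ^ 2) / K) ∧
    (∀ p : ℕ, p.Prime → p ≠ 2 → (∑ s ∈ Finset.range p, fibreAverage G p s ^ 2) / p =
      ((coincidences G p : ℝ) - (p : ℝ) ^ (2 * k + 1)) / (p : ℝ) ^ (2 * k)) ∧
    ∀ D : ℝ, 0 ≤ D → (∀ p : ℕ, p.Prime → p ≠ 2 → p ≤ z →
      (coincidences G p : ℝ) ≤ (p : ℝ) ^ (2 * k + 1) + D * (p : ℝ) ^ (2 * k)) →
      variance G z ≤ D * Nat.primeCounting z := by
  refine ⟨fun K hK => ?_, fun p hp h2 => second_moment G hp h2, variance_le G z⟩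
  have h1 := Pool.Agent.TH375.KL.additive G M N z hK
  rw [← variance_eq] at h1
  simp only [nagao_eq]
  exact h1

end Pool.Agent.Results.MP_1a0ddd_nt.AdditiveFamilies
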