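import Pool.Agent.TH944.Del.NagM

open Filter Topology
open Pool.Agent.TH965.Stk Pool.Agent.TH944.Tw

namespace Pool.Agent.Results.MP_1a0ddd_nt.TotallyComplexFields

/-- The averages of the Frobenius traces of a fibration over `ℚ` twisted by `f` tend to minus the
multiplicity of `f`, for all virtual Artin characters `f` of `ℚ`, if and only if the untwisted
averages over `ℚ` tend to minus the rank over `ℚ` and, for all linear characters `ψ` of totally
complex number fields `K` with at least `N` complex places, the averages twisted by the induced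
character of `ψ` tend to minus the dimension of the `ψ`-eigenspace. -/
theorem result {V : Type} [AddCommGroup V] [Module ℂ V] (T : Nagao V) (N : ℕ) :
    (∀ f ∈ Virt QQ, Tendsto (T.S f) atTop (𝓝 (-(T.mult f : ℂ)))) ↔
    (Tendsto (T.S fun _ => 1) atTop (𝓝 (-(Module.finrank ℂ T.ρ.invariants : ℂ))) ∧
      ∀ K, IsNF K → N ≤ r2 K → IsTC K → ∀ ψ : LinChar K,
        Tendsto (T.S (ind QQ K ψ.fn)) atTop (𝓝 (-(Module.finrank ℂ (eig T.ρ ψ) : ℂ)))) :=
  main_nagao T N

end Pool.Agent.Results.MP_1a0ddd_nt.TotallyComplexFields
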