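import Pool.Agent.TH375.KL.ZeroCount

set_option autoImplicit false

/-!
# Nagao sums for almost all members of linear systems of fibrations: base locus and visible sections

We consider the fibrations over the affine space of `t = (t_1, …, t_k)` with fibres the curves `y² = F(x, t)`,
`F ∈ ℤ[x, t]`.  If `F` has odd degree in `x`, the Frobenius trace on `H¹` of a smooth fibre over `𝔽_p` is
`-∑_x (F(x, t) / p)`, and the fibre average is `A_p(F) = -p^{-k} ∑_{x, t} (F(x, t) / p)`.

For fixed `P` and `H` the polynomials `F` run over the linear system `P + H · (c_0 + c_1 x + c_2 t_1 + … + c_{k+1} t_k)`,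
with `c` in a box.  The Nagao sums of almost all members are determined by the base locus `H = 0`.
In particular, if `H = ∏ (x - e_i(t))` and `P(e_i(t), t) = C_i(t)²` for `i = 1, …, r`, so that all members have the `r`
sections `(e_i(t), C_i(t))`, the averages of the `A_p` tend to `-r` with square root rate.
-/

namespace Pool.Agent.Results.MP_1a0ddd_nt.VisibleSections

open Finset

/-- The box `{0, …, p - 1}^n`. -/
def box (n p : ℕ) : Finset (Fin n → ℕ) := Fintype.piFinset fun _ => range p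

/-- The value of a polynomial at an integral point. -/
noncomputable def value {n : ℕ} (F : MvPolynomial (Fin n) ℤ) (u : Fin n → ℕ) : ℤ :=
  MvPolynomial.eval (fun i => (u i : ℤ)) F

/-- The member `P + H · (c_0 + c_1 x + c_2 t_1 + … + c_{k+1} t_k)`.  The variable `x` is `X 0` and `t_j` is `X j`. -/
noncomputable def member {k : ℕ} (P H : MvPolynomial (Fin (k + 1)) ℤ) (c : Fin (k + 2) → ℤ) :
    MvPolynomial (Fin (k + 1)) ℤ :=
  P + H * (MvPolynomial.C (c 0) + ∑ i, MvPolynomial.C (c i.succ) * MvPolynomial.X i)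

/-- The fibre average `A_p(F) = -p^{-k} ∑ (F(x, t) / p)`, the sum over all `(x, t)` modulo `p`. -/
noncomputable def fibreAverage {k : ℕ} (F : MvPolynomial (Fin (k + 1)) ℤ) (p : ℕ) : ℝ :=
  -((∑ u ∈ box (k + 1) p, jacobiSym (value F u) p : ℤ) : ℝ) / (p : ℝ) ^ k

/-- The contribution of the base locus, `-p^{-k} ∑ (P(x, t) / p)`, the sum over all `(x, t)` modulo `p`
with `H(x, t) ≡ 0` modulo `p`. -/
noncomputable def baseAverage {k : ℕ} (P H : MvPolynomial (Fin (k + 1)) ℤ) (p : ℕ) : ℝ :=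
  -((∑ u ∈ (box (k + 1) p).filter fun u => (p : ℤ) ∣ value H u, jacobiSym (value P u) p : ℤ) :
    ℝ) / (p : ℝ) ^ k

/-- The polynomial `∏ (x - e_i(t))`. -/
noncomputable def sections {k r : ℕ} (e : Fin r → MvPolynomial (Fin k) ℤ) :
    MvPolynomial (Fin (k + 1)) ℤ :=
  ∏ i, (MvPolynomial.X 0 - MvPolynomial.rename Fin.succ (e i))

/-- The restriction `P(e(t), t)`. -/
noncomputable def restrict {k : ℕ} (P : MvPolynomial (Fin (k + 1)) ℤ)
    (e : MvPolynomial (Fin k) ℤ) : MvPolynomial (Fin k) ℤ :=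
  MvPolynomial.aeval (Fin.cons e MvPolynomial.X : Fin (k + 1) → MvPolynomial (Fin k) ℤ) P

section
open TH375.KL

/-- the monomials of degree at most one -/
noncomputable def lin (k : ℕ) : Fin (k + 2) → MvPolynomial (Fin (k + 1)) ℤ :=
  Fin.cons 1 MvPolynomial.X

theorem lin_mono (k : ℕ) (α : Fin (k + 1) → ℕ) (hα : ∑ i, α i ≤ 1) :
    ∃ j, lin k j = ∏ i, MvPolynomial.X i ^ α i := by
  by_cases h : ∀ i, α i = 0
  · refine ⟨0, ?_⟩
    unfold lin
    simp [h]
  · push Not at h
    obtain ⟨i, hi⟩ := h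
    refine ⟨i.succ, ?_⟩
    unfold lin
    rw [Fin.cons_succ]
    have h1 := add_sum_erase univ α (mem_univ i)
    have h2 : ∑ j ∈ univ.erase i, α j = 0 := by omega
    have h3 : α i = 1 := by omega
    rw [sum_eq_zero_iff] at h2
    rw [← mul_prod_erase univ _ (mem_univ i), h3, pow_one]
    have h4 : ∏ j ∈ univ.erase i, (MvPolynomial.X j : MvPolynomial (Fin (k + 1)) ℤ) ^ α j = 1 :=
      prod_eq_one fun j hj => by rw [h2 j hj, pow_zero]
    rw [h4, mul_one]

theorem aeval_member {k p : ℕ} [hp : Fact p.Prime] (P H : MvPolynomial (Fin (k + 1)) ℤ)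
    (c : Fin (k + 2) → ℤ) (v : Fin (k + 1) → ZMod p) :
    MvPolynomial.aeval v (member P H c) =
      MvPolynomial.aeval v P + MvPolynomial.aeval v H * famVal 0 (lin k) p c v := by
  have h : ∑ j : Fin (k + 2), (c j : ZMod p) * MvPolynomial.aeval v (lin k j) =
      (c 0 : ZMod p) + ∑ i : Fin (k + 1), (c i.succ : ZMod p) * v i := by
    rw [Fin.sum_univ_succ]
    unfold lin
    simp
  unfold member famVal
  rw [h]
  simp only [map_add, map_mul, map_sum, map_zero, zero_add, MvPolynomial.aeval_X,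
    eq_intCast, map_intCast]

theorem box_sum {n p : ℕ} [hp : Fact p.Prime] (f : (Fin n → ZMod p) → ℝ) :
    ∑ u ∈ box n p, f (fun i => (u i : ZMod p)) = ∑ v, f v :=
  sum_cube_zmod f

theorem avg_sub {k p : ℕ} [hp : Fact p.Prime] (hp2 : p ≠ 2)
    (P H : MvPolynomial (Fin (k + 1)) ℤ) (c : Fin (k + 2) → ℤ) :
    fibreAverage (member P H c) p - baseAverage P H p =
      bphi P H (lin k) p c * -(Real.sqrt p ^ (k + 1) / (p : ℝ) ^ k) := by
  classical
  have hp0 : (0 : ℝ) < p := by exact_mod_cast hp.out.pos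
  have hs0 : 0 < Real.sqrt p := Real.sqrt_pos.2 hp0
  have h1 : ((∑ u ∈ box (k + 1) p, jacobiSym (value (member P H c) u) p : ℤ) : ℝ) =
      ∑ v : Fin (k + 1) → ZMod p, ((quadraticChar (ZMod p)
        (MvPolynomial.aeval v P + MvPolynomial.aeval v H * famVal 0 (lin k) p c v) : ℤ) : ℝ) := by
    rw [← box_sum]
    push_cast
    refine sum_congr rfl fun u _ => ?_
    rw [jac_eq]
    unfold value
    rw [cast_eval, aeval_member]
  have h2 : ((∑ u ∈ (box (k + 1) p).filter fun u => (p : ℤ) ∣ value H u,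
      jacobiSym (value P u) p : ℤ) : ℝ) =
      ∑ v : Fin (k + 1) → ZMod p, if MvPolynomial.aeval v H = 0 then
        ((quadraticChar (ZMod p) (MvPolynomial.aeval v P) : ℤ) : ℝ) else 0 := by
    rw [← box_sum, sum_filter]
    push_cast
    refine sum_congr rfl fun u _ => ?_
    have h3 : ((p : ℤ) ∣ value H u) ↔
        MvPolynomial.aeval (fun i => (u i : ZMod p)) H = 0 := by
      rw [← ZMod.intCast_zmod_eq_zero_iff_dvd]
      unfold value
      rw [cast_eval]
    simp only [h3]
    refine if_congr Iff.rfl ?_ rfl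
    rw [jac_eq]
    unfold value
    rw [cast_eval]
  unfold fibreAverage baseAverage
  rw [h1, h2]
  unfold bphi
  rw [dif_pos ⟨hp.out, hp2⟩]
  have h3 : ∑ v : Fin (k + 1) → ZMod p, bw P H p v (famVal 0 (lin k) p c v) =
      ∑ v : Fin (k + 1) → ZMod p, ((quadraticChar (ZMod p)
        (MvPolynomial.aeval v P + MvPolynomial.aeval v H * famVal 0 (lin k) p c v) : ℤ) : ℝ) -
      ∑ v : Fin (k + 1) → ZMod p, if MvPolynomial.aeval v H = 0 then
        ((quadraticChar (ZMod p) (MvPolynomial.aeval v P) : ℤ) : ℝ) else 0 := by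
    rw [← sum_sub_distrib]
    refine sum_congr rfl fun v _ => ?_
    unfold bw
    split_ifs with h
    · rw [h, zero_mul, add_zero, sub_self]
    · rw [sub_zero]
  rw [h3]
  field_simp
  ring

theorem weight_le {k : ℕ} (hk : 1 ≤ k) (p : ℕ) (hp : p.Prime) :
    |-(Real.sqrt p ^ (k + 1) / (p : ℝ) ^ k) * Real.log p| ≤ Real.log p := by
  have hp1 : (1 : ℝ) ≤ p := by exact_mod_cast hp.one_le
  have hp0 : (0 : ℝ) < p := by linarith
  have hs1 : 1 ≤ Real.sqrt p := Real.one_le_sqrt.2 hp1
  have hl : 0 ≤ Real.log p := Real.log_nonneg hp1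
  rw [abs_mul, abs_neg, abs_of_nonneg hl, abs_of_nonneg (by positivity)]
  refine mul_le_of_le_one_left hl ?_
  rw [div_le_one (by positivity)]
  have h1 : (p : ℝ) ^ k = Real.sqrt p ^ (2 * k) := by
    rw [pow_mul, Real.sq_sqrt hp0.le]
  rw [h1]
  exact pow_le_pow_right₀ hs1 (by omega)

/-- the first part: the base locus -/
theorem base (k : ℕ) (hk : 1 ≤ k) : ∃ C : ℝ, 0 < C ∧
    ∀ (P H : MvPolynomial (Fin (k + 1)) ℤ) (A : Fin (k + 2) → ℤ) (N z : ℕ), z ^ 2 ≤ N →
    ∀ K : ℝ, 0 < K →
    ({c : Fin (k + 2) → ℤ | (∀ i, A i < c i ∧ c i ≤ A i + N) ∧ ∃ T : ℕ, 1 ≤ T ∧ T ≤ z ∧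
      K * (T * ((Nat.log 2 T : ℝ) + 1) ^ 5) <
        (∑ p ∈ (range (T + 1)).filter fun p => p.Prime ∧ p ≠ 2,
          (fibreAverage (member P H c) p - baseAverage P H p) * Real.log p) ^ 2}.ncard : ℝ) ≤
      C * (N : ℝ) ^ (k + 2) / K := by
  obtain ⟨C, hC, h⟩ := base_locus (k + 1) (k + 2)
  refine ⟨C, hC, ?_⟩
  intro P H A N z hzN K hK
  have h1 := h (fun p => -(Real.sqrt p ^ (k + 1) / (p : ℝ) ^ k) * Real.log p)
    (fun p hp => weight_le hk p hp) P H (lin k) (lin_mono k) A N z hzN K hK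
  refine le_trans (le_of_eq ?_) h1
  congr 2
  ext c
  rw [Set.mem_ofPred_eq, Set.mem_ofPred_eq]
  refine and_congr_right fun _ => exists_congr fun x => and_congr_right fun _ =>
    and_congr_right fun _ => ?_
  have h2 : ∑ p ∈ Prm x, bphi P H (lin k) p c *
      (-(Real.sqrt p ^ (k + 1) / (p : ℝ) ^ k) * Real.log p) =
      ∑ p ∈ (range (x + 1)).filter (fun p => p.Prime ∧ p ≠ 2),
          (fibreAverage (member P H c) p - baseAverage P H p) * Real.log p := by
    have h3 : (range (x + 1)).filter (fun p => p.Prime ∧ p ≠ 2) = (Prm x).filter (· ≠ 2) := by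
      unfold Prm
      rw [filter_filter]
    rw [h3, sum_filter]
    refine sum_congr rfl fun p hp => ?_
    unfold Prm at hp
    rw [mem_filter] at hp
    have : Fact p.Prime := ⟨hp.2⟩
    split_ifs with h4
    · rw [avg_sub h4]
      ring
    · unfold bphi
      rw [dif_neg]
      · ring
      · exact fun h5 => h4 h5.2
  rw [h2]
  rfl

/-- the base locus in the case of sections -/
theorem base_bound {k r : ℕ} (e S : Fin r → MvPolynomial (Fin k) ℤ)
    (P : MvPolynomial (Fin (k + 1)) ℤ) (he : Function.Injective e) (hS : ∀ i, S i ≠ 0)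
    (hP : ∀ i, restrict P (e i) = S i ^ 2) : ∃ D : ℝ, 0 ≤ D ∧
    ∀ p : ℕ, p.Prime → |baseAverage P (sections e) p + r| ≤ D * (1 / Real.sqrt p) := by
  classical
  set G : MvPolynomial (Fin k) ℤ :=
    (∏ i, S i) * ∏ i, ∏ j ∈ univ.erase i, (e i - e j) with hG
  have hG0 : G ≠ 0 := by
    refine mul_ne_zero (prod_ne_zero_iff.2 fun i _ => hS i) (prod_ne_zero_iff.2 fun i _ =>
      prod_ne_zero_iff.2 fun j hj => sub_ne_zero.2 fun h => ?_)
    exact ne_of_mem_erase hj (he h).symm
  obtain ⟨D, hD, hZ⟩ := zero_count G hG0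
  refine ⟨2 * r * D, by positivity, ?_⟩
  intro p hp
  have hf : Fact p.Prime := ⟨hp⟩
  have hp0 : (0 : ℝ) < p := by exact_mod_cast hp.pos
  -- the inner sums
  set In : (Fin k → ZMod p) → ℝ := fun t => ∑ x : ZMod p,
    if ∏ i, (x - MvPolynomial.aeval t (e i)) = 0 then
      ((quadraticChar (ZMod p) (MvPolynomial.aeval (Fin.cons x t : Fin (k + 1) → ZMod p) P) : ℤ) :
        ℝ) else 0 with hIn
  have hH : ∀ (x : ZMod p) (t : Fin k → ZMod p),
      MvPolynomial.aeval (Fin.cons x t : Fin (k + 1) → ZMod p) (sections e) =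
        ∏ i, (x - MvPolynomial.aeval t (e i)) := by
    intro x t
    unfold sections
    rw [map_prod]
    refine prod_congr rfl fun i _ => ?_
    rw [map_sub, MvPolynomial.aeval_X, Fin.cons_zero, MvPolynomial.aeval_rename]
    rfl
  have hR : ∀ (t : Fin k → ZMod p) (i : Fin r),
      MvPolynomial.aeval (Fin.cons (MvPolynomial.aeval t (e i)) t : Fin (k + 1) → ZMod p) P =
        MvPolynomial.aeval t (S i) ^ 2 := by
    intro t i
    rw [← map_pow, ← hP i]
    unfold restrict
    rw [MvPolynomial.comp_aeval_apply]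
    congr 1
    congr 1
    funext j
    refine Fin.cases ?_ (fun j => ?_) j
    · simp
    · simp
  have hbase : baseAverage P (sections e) p = -(∑ t, In t) / (p : ℝ) ^ k := by
    unfold baseAverage
    have h2 : ((∑ u ∈ (box (k + 1) p).filter fun u => (p : ℤ) ∣ value (sections e) u,
      jacobiSym (value P u) p : ℤ) : ℝ) = ∑ t, In t := by
      rw [hIn]
      have h4 := sum_cons (k := k) (p := p) fun v =>
        if MvPolynomial.aeval v (sections e) = 0 then
          ((quadraticChar (ZMod p) (MvPolynomial.aeval v P) : ℤ) : ℝ) else 0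
      simp only [hH] at h4
      rw [← h4, ← box_sum, sum_filter]
      push_cast
      refine sum_congr rfl fun u _ => ?_
      have h3 : ((p : ℤ) ∣ value (sections e) u) ↔
          MvPolynomial.aeval (fun i => (u i : ZMod p)) (sections e) = 0 := by
        rw [← ZMod.intCast_zmod_eq_zero_iff_dvd]
        unfold value
        rw [cast_eval]
      simp only [h3]
      refine if_congr Iff.rfl ?_ rfl
      rw [jac_eq]
      unfold value
      rw [cast_eval]
    rw [h2]
  -- the roots
  have hroots : ∀ t : Fin k → ZMod p,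
      (univ.filter fun x : ZMod p => ∏ i, (x - MvPolynomial.aeval t (e i)) = 0) =
        univ.image fun i => MvPolynomial.aeval t (e i) := by
    intro t
    ext x
    rw [mem_filter, mem_image, prod_eq_zero_iff]
    simp only [mem_univ, true_and, sub_eq_zero]
    exact exists_congr fun i => eq_comm
  have hInabs : ∀ t, |In t| ≤ r := by
    intro t
    rw [hIn]
    simp only
    rw [← sum_filter, hroots]
    refine (abs_sum_le_sum_abs _ _).trans ?_
    have h1 : ∀ x ∈ univ.image (fun i => MvPolynomial.aeval t (e i)),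
        |((quadraticChar (ZMod p) (MvPolynomial.aeval (Fin.cons x t : Fin (k + 1) → ZMod p) P) :
          ℤ) : ℝ)| ≤ 1 := by
      intro x _
      rcases quadraticChar_isQuadratic (ZMod p)
        (MvPolynomial.aeval (Fin.cons x t : Fin (k + 1) → ZMod p) P) with h1 | h1 | h1 <;>
        rw [h1] <;> simp
    refine (sum_le_sum h1).trans ?_
    rw [sum_const, nsmul_eq_mul, mul_one]
    have h2 : (univ.image fun i => MvPolynomial.aeval t (e i)).card ≤ r := by
      refine card_image_le.trans ?_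
      rw [card_univ, Fintype.card_fin]
    exact_mod_cast h2
  have hIngood : ∀ t, MvPolynomial.aeval t G ≠ 0 → In t = r := by
    intro t ht
    rw [hG, map_mul, map_prod, map_prod] at ht
    have h1 : ∀ i, MvPolynomial.aeval t (S i) ≠ 0 := fun i =>
      prod_ne_zero_iff.1 (left_ne_zero_of_mul ht) i (mem_univ i)
    have h2 : Function.Injective fun i => MvPolynomial.aeval t (e i) := by
      intro i j hij
      by_contra hne
      have h3 := prod_ne_zero_iff.1 (right_ne_zero_of_mul ht) i (mem_univ i)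
      rw [map_prod] at h3
      have h4 := prod_ne_zero_iff.1 h3 j (mem_erase.2 ⟨fun h => hne h.symm, mem_univ j⟩)
      rw [map_sub] at h4
      exact h4 (sub_eq_zero.2 hij)
    rw [hIn]
    simp only
    rw [← sum_filter, hroots, sum_image fun i _ j _ h => h2 h]
    have h3 : ∀ i, ((quadraticChar (ZMod p) (MvPolynomial.aeval
        (Fin.cons (MvPolynomial.aeval t (e i)) t : Fin (k + 1) → ZMod p) P) : ℤ) : ℝ) = 1 := by
      intro i
      rw [hR, quadraticChar_sq_one' (h1 i)]
      simp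
    rw [sum_congr rfl fun i _ => h3 i, sum_const, card_univ, Fintype.card_fin, nsmul_eq_mul,
      mul_one]
  have hsum : |∑ t, In t - r * (p : ℝ) ^ k| ≤ 2 * r *
      (univ.filter fun t : Fin k → ZMod p => MvPolynomial.aeval t G = 0).card := by
    have h1 : ∑ t, In t - r * (p : ℝ) ^ k = ∑ t, (In t - r) := by
      rw [sum_sub_distrib, sum_const, card_univ, Fintype.card_fun, ZMod.card, Fintype.card_fin,
        nsmul_eq_mul]
      push_cast
      ring
    rw [h1]
    refine (abs_sum_le_sum_abs _ _).trans ?_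
    have h2 : ∀ t, |In t - r| ≤ if MvPolynomial.aeval t G = 0 then (2 * r : ℝ) else 0 := by
      intro t
      split_ifs with h
      · have h3 := hInabs t
        have h4 : (0 : ℝ) ≤ r := Nat.cast_nonneg _
        rw [abs_le] at h3 ⊢
        constructor <;> linarith
      · rw [hIngood t h, sub_self, abs_zero]
    refine (sum_le_sum fun t _ => h2 t).trans (le_of_eq ?_)
    rw [← sum_filter, sum_const, nsmul_eq_mul, mul_comm]
  have hpk : (0 : ℝ) < (p : ℝ) ^ k := by positivity
  have h1 : baseAverage P (sections e) p + r =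
      -((∑ t, In t - r * (p : ℝ) ^ k) / (p : ℝ) ^ k) := by
    rw [hbase]
    field_simp
    ring
  rw [h1, abs_neg, abs_div, abs_of_pos hpk, div_le_iff₀ hpk]
  refine hsum.trans ?_
  have h2 := mul_le_mul_of_nonneg_left (hZ p hf) (by positivity : (0 : ℝ) ≤ 2 * r)
  refine h2.trans (le_of_eq ?_)
  ring

end

/-- **Nagao sums of almost all members: the base locus and the visible sections** -/
theorem result (k : ℕ) (hk : 1 ≤ k) :
    (∃ C : ℝ, 0 < C ∧ ∀ (P H : MvPolynomial (Fin (k + 1)) ℤ) (A : Fin (k + 2) → ℤ) (N z : ℕ),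
      z ^ 2 ≤ N → ∀ K : ℝ, 0 < K →
      ({c : Fin (k + 2) → ℤ | (∀ i, A i < c i ∧ c i ≤ A i + N) ∧ ∃ T : ℕ, 1 ≤ T ∧ T ≤ z ∧
        K * (T * ((Nat.log 2 T : ℝ) + 1) ^ 5) <
          (∑ p ∈ (range (T + 1)).filter fun p => p.Prime ∧ p ≠ 2,
            (fibreAverage (member P H c) p - baseAverage P H p) * Real.log p) ^ 2}.ncard : ℝ) ≤
        C * (N : ℝ) ^ (k + 2) / K) ∧
    (∀ (r : ℕ) (e S : Fin r → MvPolynomial (Fin k) ℤ) (P : MvPolynomial (Fin (k + 1)) ℤ),
      Function.Injective e → (∀ i, S i ≠ 0) → (∀ i, restrict P (e i) = S i ^ 2) →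
      ∃ C : ℝ, 0 < C ∧ ∀ (A : Fin (k + 2) → ℤ) (N z : ℕ), z ^ 2 ≤ N → ∀ K : ℝ, 0 < K →
      ({c : Fin (k + 2) → ℤ | (∀ i, A i < c i ∧ c i ≤ A i + N) ∧ ∃ T : ℕ, 1 ≤ T ∧ T ≤ z ∧
        K * (T * ((Nat.log 2 T : ℝ) + 1) ^ 5) <
          (∑ p ∈ (range (T + 1)).filter fun p => p.Prime ∧ p ≠ 2,
            (fibreAverage (member P (sections e) c) p + r) * Real.log p) ^ 2}.ncard : ℝ) ≤
        C * (N : ℝ) ^ (k + 2) / K) := by
  refine ⟨base k hk, ?_⟩
  intro r e S P he hS hP
  obtain ⟨C₁, hC₁, h⟩ := base k hk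
  obtain ⟨D, hD, hb⟩ := base_bound e S P he hS hP
  refine ⟨4 * (C₁ * 1) + 16 * D ^ 2 + 1, by positivity, ?_⟩
  intro A N z hzN K hK
  have hbox : {c : Fin (k + 2) → ℤ | ∀ i, A i < c i ∧ c i ≤ A i + N} =
      ((TH375.KL.box A N : Finset (Fin (k + 2) → ℤ)) : Set (Fin (k + 2) → ℤ)) := by
    ext c
    rw [Set.mem_ofPred_eq, mem_coe]
    unfold TH375.KL.box
    rw [Fintype.mem_piFinset]
    exact forall_congr' fun i => mem_Ioc.symm
  have hfin : {c : Fin (k + 2) → ℤ | ∀ i, A i < c i ∧ c i ≤ A i + N}.Finite := by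
    rw [hbox]
    exact Finset.finite_toSet _
  have hcard : ({c : Fin (k + 2) → ℤ | ∀ i, A i < c i ∧ c i ≤ A i + N}.ncard : ℝ) =
      (N : ℝ) ^ (k + 2) := by
    rw [hbox, Set.ncard_coe_finset, TH375.KL.card_box]
    push_cast
    rfl
  have hN : (0 : ℝ) ≤ (N : ℝ) ^ (k + 2) := by positivity
  rcases lt_or_ge K (16 * D ^ 2 + 1) with hKs | hKl
  · refine (Nat.cast_le.2 (Set.ncard_le_ncard (fun c hc => hc.1) hfin)).trans ?_
    rw [hcard, le_div_iff₀ hK]
    have h3 : 0 ≤ 4 * (C₁ * 1) * (N : ℝ) ^ (k + 2) := by positivity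
    calc (N : ℝ) ^ (k + 2) * K ≤ (N : ℝ) ^ (k + 2) * (16 * D ^ 2 + 1) :=
          mul_le_mul_of_nonneg_left hKs.le hN
      _ ≤ (4 * (C₁ * 1) + 16 * D ^ 2 + 1) * (N : ℝ) ^ (k + 2) := by linarith
  · refine le_trans ?_ (TH375.KL.final_aux (C := D) hC₁.le zero_le_one hN hK zero_le_one le_rfl)
    have h1 := h P (sections e) A N z hzN (K / 4) (by positivity)
    rw [one_pow, mul_one, mul_one]
    refine le_trans (Nat.cast_le.2 (Set.ncard_le_ncard ?_ (hfin.subset fun c hc => hc.1))) h1
    rintro c ⟨hc, T, hT1, hTz, hT⟩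
    refine ⟨hc, T, hT1, hTz, ?_⟩
    have h2 : ∑ p ∈ (range (T + 1)).filter (fun p => p.Prime ∧ p ≠ 2),
        (fibreAverage (member P (sections e) c) p + r) * Real.log p =
        ∑ p ∈ (range (T + 1)).filter (fun p => p.Prime ∧ p ≠ 2),
          (fibreAverage (member P (sections e) c) p - baseAverage P (sections e) p) *
            Real.log p +
        ∑ p ∈ (range (T + 1)).filter (fun p => p.Prime ∧ p ≠ 2),
          (baseAverage P (sections e) p + r) * Real.log p := by
      rw [← sum_add_distrib]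
      exact sum_congr rfl fun p _ => by ring
    rw [h2] at hT
    have h3 := TH375.KL.err_sum hD (fun p => baseAverage P (sections e) p + r)
      ((range (T + 1)).filter (fun p => p.Prime ∧ p ≠ 2)) hT1 (fun p hp => by
        rw [mem_filter, mem_range] at hp
        exact ⟨hp.2.1, by omega⟩) (fun p hp => hb p (mem_filter.1 hp).2.1)
    exact TH375.KL.split_aux (C := D) hT h3 hKl (by positivity)

end Pool.Agent.Results.MP_1a0ddd_nt.VisibleSections
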